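import Mathlib

/-!
Binary structures (functions `c : X → X → K`), isomorphisms, induced substructures, and
families of induced substructures indexed by Cantor space.
-/

set_option autoImplicit false

namespace Pool.Agent.H566R2

open Set Filter Topology

variable {K : Type*}

/-- Two binary structures are isomorphic. -/
def Isom {X Y : Type*} (c : X → X → K) (d : Y → Y → K) : Prop :=
  ∃ e : X ≃ Y, ∀ x y, d (e x) (e y) = c x y

theorem Isom.symm {X Y : Type*} {c : X → X → K} {d : Y → Y → K} (h : Isom c d) : Isom d c := by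
  obtain ⟨e, he⟩ := h
  exact ⟨e.symm, fun x y => by rw [← he]; simp⟩

theorem Isom.trans {X Y Z : Type*} {c : X → X → K} {d : Y → Y → K} {f : Z → Z → K}
    (h : Isom c d) (h' : Isom d f) : Isom c f := by
  obtain ⟨e, he⟩ := h
  obtain ⟨e', he'⟩ := h'
  exact ⟨e.trans e', fun x y => by simp [he, he']⟩

theorem Isom.refl {X : Type*} (c : X → X → K) : Isom c c := ⟨Equiv.refl _, fun _ _ => rfl⟩

/-- The induced substructure on a set. -/
def res {X : Type*} (c : X → X → K) (D : Set X) : D → D → K := fun x y => c x y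

/-- There are perfectly many pairwise non-isomorphic induced substructures. -/
def PerfFam (c : ℕ → ℕ → K) : Prop :=
  ∃ D : (ℕ → Bool) → Set ℕ,
    (∀ z, ∃ k, ∀ A A', A k = A' k → (z ∈ D A ↔ z ∈ D A')) ∧ (∀ A, (D A).Infinite) ∧
      ∀ A B, Isom (res c (D A)) (res c (D B)) → A = B

/-- the enumeration of an infinite set -/
theorem nth_locally_const {D : (ℕ → Bool) → Set ℕ}
    (h1 : ∀ z, ∃ k, ∀ A A', A k = A' k → (z ∈ D A ↔ z ∈ D A')) (h2 : ∀ A, (D A).Infinite)
    (A : ℕ → Bool) (i : ℕ) :
    ∀ᶠ A' in 𝓝 A, Nat.nth (· ∈ D A') i = Nat.nth (· ∈ D A) i := by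
  classical
  choose κ hκ using h1
  set v := Nat.nth (· ∈ D A) i with hv
  have hmem : v ∈ D A := Nat.nth_mem_of_infinite (p := (· ∈ D A)) (h2 A) i
  have hev : ∀ᶠ A' in 𝓝 A, ∀ z ∈ Finset.range (v + 1), A' (κ z) = A (κ z) := by
    rw [Filter.eventually_all_finset]
    intro z _
    have hc : ContinuousAt (fun A' : ℕ → Bool => A' (κ z)) A := (continuous_apply (κ z)).continuousAt
    have : {A (κ z)} ∈ 𝓝 (A (κ z)) := by simp
    have := hc this
    filter_upwards [this] with A' hA'
    simpa using hA'
  filter_upwards [hev] with A' hA'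
  have hiff : ∀ z < v + 1, (z ∈ D A' ↔ z ∈ D A) := fun z hz =>
    hκ z A' A (hA' z (Finset.mem_range.2 hz))
  have hvm : v ∈ D A' := (hiff v (Nat.lt_succ_self v)).2 hmem
  have hcount : Nat.count (· ∈ D A') v = Nat.count (· ∈ D A) v := by
    rw [Nat.count_eq_card_filter_range, Nat.count_eq_card_filter_range]
    congr 1
    apply Finset.filter_congr
    intro z hz
    exact hiff z (Nat.lt_succ_of_lt (Finset.mem_range.1 hz))
  have hi : Nat.count (· ∈ D A) v = i := by
    rw [hv]
    exact Nat.count_nth_of_infinite (p := (· ∈ D A)) (h2 A) i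
  have := Nat.nth_count (p := (· ∈ D A')) hvm
  rw [hcount, hi] at this
  exact this

/-- A family as in `PerfFam` gives a continuous family of pairwise non-isomorphic structures on
`ℕ`. -/
theorem PerfFam.cont [TopologicalSpace K] {c : ℕ → ℕ → K} (h : PerfFam c) :
    ∃ g : (ℕ → Bool) → (ℕ → ℕ → K), Continuous g ∧
      (∀ A, ∃ f : ℕ → ℕ, Function.Injective f ∧ g A = fun i j => c (f i) (f j)) ∧
      ∀ A B, Isom (g A) (g B) → A = B := by
  classical
  obtain ⟨D, h1, h2, h3⟩ := h
  refine ⟨fun A i j => c (Nat.nth (· ∈ D A) i) (Nat.nth (· ∈ D A) j), ?_, ?_, ?_⟩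
  · refine continuous_pi fun i => continuous_pi fun j => continuous_iff_continuousAt.2 fun A => ?_
    have e1 := nth_locally_const h1 h2 A i
    have e2 := nth_locally_const h1 h2 A j
    have : (fun A' => c (Nat.nth (· ∈ D A') i) (Nat.nth (· ∈ D A') j)) =ᶠ[𝓝 A]
        fun _ => c (Nat.nth (· ∈ D A) i) (Nat.nth (· ∈ D A) j) := by
      filter_upwards [e1, e2] with A' h1 h2
      rw [h1, h2]
    exact continuousAt_const.congr this.symm
  · intro A
    exact ⟨fun i => Nat.nth (· ∈ D A) i, Nat.nth_injective (p := (· ∈ D A)) (h2 A), rfl⟩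
  · intro A B hAB
    apply h3
    have key : ∀ A, Isom (fun i j => c (Nat.nth (· ∈ D A) i) (Nat.nth (· ∈ D A) j))
        (res c (D A)) := by
      intro A
      have hinj := Nat.nth_injective (p := (· ∈ D A)) (h2 A)
      have hran : Set.range (Nat.nth (· ∈ D A)) = D A :=
        Nat.range_nth_of_infinite (p := (· ∈ D A)) (h2 A)
      refine ⟨(Equiv.ofInjective _ hinj).trans (Equiv.setCongr hran), fun x y => rfl⟩
    exact ((key A).symm.trans hAB).trans (key B)

/-- the image of Cantor space under a continuous injection is a nonempty perfect set -/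
theorem perfect_range {X : Type*} [TopologicalSpace X] [T2Space X] (g : (ℕ → Bool) → X)
    (hc : Continuous g) (hi : Function.Injective g) :
    (Set.range g).Nonempty ∧ Perfect (Set.range g) := by
  refine ⟨Set.range_nonempty g, (isCompact_range hc).isClosed, ?_⟩
  rw [preperfect_iff_nhds]
  rintro _ ⟨A, rfl⟩ U hU
  have ht : Tendsto (fun n => Function.update A n (!A n)) atTop (𝓝 A) := by
    rw [tendsto_pi_nhds]
    intro k
    have : (fun n => Function.update A n (!A n) k) =ᶠ[atTop] fun _ => A k := by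
      filter_upwards [eventually_gt_atTop k] with n hn
      rw [Function.update_of_ne (Nat.ne_of_lt hn)]
    exact tendsto_const_nhds.congr' this.symm
  have h2 := (hc.tendsto A).comp ht
  obtain ⟨n, hn⟩ := (h2.eventually hU).exists
  refine ⟨_, ⟨hn, ⟨_, rfl⟩⟩, fun h => ?_⟩
  have := congrFun (hi h) n
  simp at this

end Pool.Agent.H566R2
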